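import Pool.Agent.TH346.CG.Defs

set_option autoImplicit false

/-!
# GSC-TRI: a symmetric set with small tripling
-/

open Finset
open scoped Pointwise

namespace Pool.Agent.TH75.CG

open Pool.Agent.TH346.CG

section
variable {Γ : Type} [AddCommGroup Γ] [DecidableEq Γ]

lemma ks_eq (n : ℕ) (D : Finset Γ) : ks n D = n • D := by
  induction n with
  | zero =>
    rw [zero_nsmul]
    rfl
  | succ n ih =>
    rw [succ_nsmul, ← ih]
    rfl

lemma card_ks (K n : ℕ) (B : Finset Γ) (hB : B.Nonempty) (h : (B - B).card ≤ K * B.card) :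
    (n • (B - B)).card ≤ K ^ (2 * n) * B.card := by
  have h1 := pluennecke_ruzsa_inequality_nsmul_sub_nsmul_sub hB B n n
  rw [← nsmul_sub] at h1
  have hB0 : (0 : ℚ≥0) < B.card := by exact_mod_cast hB.card_pos
  have h2 : ((B - B).card / B.card : ℚ≥0) ≤ K := by
    rw [div_le_iff₀ hB0]
    exact_mod_cast h
  have h3 : ((n • (B - B)).card : ℚ≥0) ≤ (K : ℚ≥0) ^ (2 * n) * B.card := by
    refine h1.trans ?_
    rw [two_mul]
    gcongr
  exact_mod_cast h3

lemma mem_nsmul_mono {D : Finset Γ} (h0 : (0 : Γ) ∈ D) {m n : ℕ} (hmn : m ≤ n) :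
    m • D ⊆ n • D := by
  obtain ⟨c, rfl⟩ := Nat.exists_eq_add_of_le hmn
  rw [add_nsmul]
  have h1 : (0 : Γ) ∈ c • D := by
    induction c with
    | zero => rw [zero_nsmul]; exact mem_zero.2 rfl
    | succ c ih =>
      rw [succ_nsmul]
      have := add_mem_add (ih (by omega)) h0
      rwa [add_zero] at this
  intro x hx
  have := add_mem_add hx h1
  rwa [add_zero] at this

end

theorem tripling (K k : ℕ) : ∃ K' : ℕ, ∀ (Γ : Type) [AddCommGroup Γ] [DecidableEq Γ]
    (A B : Finset Γ) (y : Γ), -A = A → B ⊆ A → B.Nonempty → (B - B).card ≤ K * B.card →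
    ∃ S ⊆ A, -S = S ∧ B ⊆ S ∧ (∀ x ∈ A, x - y ∈ ks k (B - B) → x ∈ S) ∧
      (S + S + S).card ≤ K' * S.card := by
  refine ⟨64 * K ^ (2 * (3 * (k + 1))), ?_⟩
  intro Γ _ _ A B y hA hBA hB hK
  obtain ⟨D, hD⟩ : ∃ D, D = B - B := ⟨_, rfl⟩
  obtain ⟨g, hg⟩ := hB
  have hD0 : (0 : Γ) ∈ D := by
    rw [hD, ← sub_self g]
    exact sub_mem_sub hg hg
  have hDn : -D = D := by rw [hD, neg_sub]
  have hkD : ∀ n : ℕ, -(n • D) = n • D := by
    intro n
    rw [← neg_nsmul, hDn]
  obtain ⟨S, hS⟩ : ∃ S, S = (B ∪ -B) ∪ (A.filter (fun x => x - y ∈ k • D) ∪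
      A.filter (fun x => -x - y ∈ k • D)) := ⟨_, rfl⟩
  have hSm : ∀ x, x ∈ S ↔ ((x ∈ B ∨ -x ∈ B) ∨ ((x ∈ A ∧ x - y ∈ k • D) ∨
      (x ∈ A ∧ -x - y ∈ k • D))) := by
    intro x
    rw [hS]
    simp only [mem_union, mem_filter, mem_neg']
  have hAm : ∀ x, x ∈ A → -x ∈ A := by
    intro x hx
    rw [← hA, mem_neg', neg_neg]
    exact hx
  have hBS : B ⊆ S := fun x hx => (hSm x).2 (Or.inl (Or.inl hx))
  have hSA : S ⊆ A := by
    intro x hx
    rcases (hSm x).1 hx with (h | h) | (h | h)
    · exact hBA h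
    · have := hAm _ (hBA h)
      rwa [neg_neg] at this
    · exact h.1
    · exact h.1
  have hSneg : ∀ x ∈ S, -x ∈ S := by
    intro x hx
    rw [hSm]
    rcases (hSm x).1 hx with (h | h) | (h | h)
    · left; right; rwa [neg_neg]
    · left; left; exact h
    · right; right; exact ⟨hAm _ h.1, by rw [neg_neg]; exact h.2⟩
    · right; left; exact ⟨hAm _ h.1, h.2⟩
  refine ⟨S, hSA, ?_, hBS, ?_, ?_⟩
  · ext x
    rw [mem_neg']
    constructor
    · intro h
      have := hSneg _ h
      rwa [neg_neg] at this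
    · exact hSneg x
  · intro x hx hxy
    rw [ks_eq, ← hD] at hxy
    exact (hSm x).2 (Or.inr (Or.inl ⟨hx, hxy⟩))
  · obtain ⟨T, hT⟩ : ∃ T : Finset Γ, T = {g, -g, y, -y} := ⟨_, rfl⟩
    obtain ⟨E, hE⟩ : ∃ E : Finset Γ, E = (k + 1) • D := ⟨_, rfl⟩
    have hDE : D ⊆ E := by
      have := mem_nsmul_mono hD0 (show 1 ≤ k + 1 by omega)
      rw [one_nsmul] at this
      rwa [hE]
    have hkE : k • D ⊆ E := by
      rw [hE]
      exact mem_nsmul_mono hD0 (Nat.le_succ k)
    have hST : S ⊆ T + E := by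
      intro x hx
      have key : ∀ t ∈ T, x - t ∈ E → x ∈ T + E := by
        intro t ht h
        have := add_mem_add ht h
        rwa [add_sub_cancel] at this
      rcases (hSm x).1 hx with (h | h) | (h | h)
      · refine key g (by rw [hT]; simp) (hDE ?_)
        rw [hD]
        exact sub_mem_sub h hg
      · refine key (-g) (by rw [hT]; simp) (hDE ?_)
        have h1 : -x - g ∈ D := by
          rw [hD]
          exact sub_mem_sub h hg
        rw [← hDn, mem_neg']
        have : -(x - -g) = -x - g := by abel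
        rwa [this]
      · exact key y (by rw [hT]; simp) (hkE h.2)
      · refine key (-y) (by rw [hT]; simp) (hkE ?_)
        rw [← hkD, mem_neg']
        have : -(x - -y) = -x - y := by abel
        rw [this]
        exact h.2
    have h3 : S + S + S ⊆ (T + T + T) + (3 * (k + 1)) • D := by
      have h4 : S + S + S ⊆ (T + E) + (T + E) + (T + E) :=
        add_subset_add (add_subset_add hST hST) hST
      have h5 : (T + E) + (T + E) + (T + E) = (T + T + T) + (3 * (k + 1)) • D := by
        have h6 : (3 * (k + 1)) • D = E + E + E := by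
          rw [hE, ← add_nsmul, ← add_nsmul]
          congr 1
          ring
        rw [h6]
        abel
      rwa [h5] at h4
    have hTc : T.card ≤ 4 := by
      rw [hT]
      exact card_le_four
    have h7 : (T + T + T).card ≤ 64 := by
      calc (T + T + T).card ≤ (T + T).card * T.card := card_add_le
        _ ≤ (T.card * T.card) * T.card := Nat.mul_le_mul_right _ card_add_le
        _ ≤ (4 * 4) * 4 := Nat.mul_le_mul (Nat.mul_le_mul hTc hTc) hTc
        _ = 64 := by norm_num
    have h8 : ((3 * (k + 1)) • D).card ≤ K ^ (2 * (3 * (k + 1))) * B.card := by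
      rw [hD]
      exact card_ks K _ B ⟨g, hg⟩ hK
    calc (S + S + S).card ≤ ((T + T + T) + (3 * (k + 1)) • D).card := card_le_card h3
      _ ≤ (T + T + T).card * ((3 * (k + 1)) • D).card := card_add_le
      _ ≤ 64 * (K ^ (2 * (3 * (k + 1))) * B.card) := Nat.mul_le_mul h7 h8
      _ ≤ 64 * (K ^ (2 * (3 * (k + 1))) * S.card) := by
          gcongr
      _ = _ := by ring

end Pool.Agent.TH75.CG
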